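import Pool.Agent.Y836.RS.Small
import Pool.Agent.Y105.RS.StmC

/-! Project RS (helper105), part RSW-SMALLW: few points are in short cycles, with weights.
Adaptation of `Pool.Agent.Y836.RS.Small` (helper836), by helper727. -/

set_option autoImplicit false
set_option linter.unusedSectionVars false

open Finset Equiv

namespace Pool.Agent.Y727.RS

open Pool.Agent.Y105.RS Pool.Agent.Y836.RS

section

variable {V : Type} [Fintype V] [DecidableEq V] [Nonempty V]

/-- short cycles of `a` -/
theorem am_clw (hF : S_FLIP) {p : V → V → ℝ} (hp : Wt p) (M K : ℕ) (β Q : ℝ)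
    (Θ Θ' : Perm V → ℝ) (hΘ : ∀ g, 0 ≤ Θ g) (hΘ' : ∀ g, Θ g ≤ Θ' g) (hQ1 : 1 ≤ Q)
    (hQ : ∀ g x y, Θ (swap x y * g) ≤ Q * Θ' g)
    (h1 : am p M (fun σ a b => Θ' σ * ind (near K σ a b)) ≤ β)
    (h2 : am p M (fun σ a b => Θ' σ * ind (near K σ b a)) ≤ β) :
    am p M (fun σ a _ => Θ σ * ind (cl σ a ≤ K)) ≤ (1 + Q) * β ∧
    am p M (fun σ _ b => Θ σ * ind (cl σ b ≤ K)) ≤ (1 + Q) * β := by
  have hQ0 : 0 ≤ Q := by linarith
  constructor
  · have h3 : am p M (fun σ a _ => Θ σ * ind (cl σ a ≤ K)) ≤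
        am p M (fun σ a b => Θ σ * ind (near K σ a b) +
          Θ (swap a b * (swap a b * σ)) * ind (near K (swap a b * σ) a b)) := by
      refine am_mono hp M fun σ a b => ?_
      rw [← mul_assoc, swap_mul_self, one_mul, ← mul_add]
      refine mul_le_mul_of_nonneg_left ?_ (hΘ σ)
      refine ind_le _ _ (add_nonneg (ind_nonneg _) (ind_nonneg _)) fun hK => ?_
      by_cases hs : σ.SameCycle a b
      · rw [ind_true (near_same K σ a b hK hs)]
        have := ind_nonneg (near K (swap a b * σ) a b)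
        linarith
      · rw [ind_true (near_diff K σ a b hK hs)]
        have := ind_nonneg (near K σ a b)
        linarith
    have h4 := am_flip hF p M (fun σ a b => Θ (swap a b * σ) * ind (near K σ a b))
    have h5 : am p M (fun σ a b => Θ (swap a b * σ) * ind (near K σ a b)) ≤ Q * β := by
      refine le_trans ?_ (mul_le_mul_of_nonneg_left h1 hQ0)
      rw [← am_smul]
      refine am_mono hp M fun σ a b => ?_
      rw [← mul_assoc]
      exact mul_le_mul_of_nonneg_right (hQ σ a b) (ind_nonneg _)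
    have h6 : am p M (fun σ a b => Θ σ * ind (near K σ a b)) ≤ β := by
      refine le_trans ?_ h1
      refine am_mono hp M fun σ a b => ?_
      exact mul_le_mul_of_nonneg_right (hΘ' σ) (ind_nonneg _)
    rw [am_add] at h3
    linarith
  · have h3 : am p M (fun σ _ b => Θ σ * ind (cl σ b ≤ K)) ≤
        am p M (fun σ a b => Θ σ * ind (near K σ b a) +
          Θ (swap a b * (swap a b * σ)) * ind (near K (swap a b * σ) b a)) := by
      refine am_mono hp M fun σ a b => ?_
      rw [← mul_assoc, swap_mul_self, one_mul, ← mul_add]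
      refine mul_le_mul_of_nonneg_left ?_ (hΘ σ)
      refine ind_le _ _ (add_nonneg (ind_nonneg _) (ind_nonneg _)) fun hK => ?_
      by_cases hs : σ.SameCycle b a
      · rw [ind_true (near_same K σ b a hK hs)]
        have := ind_nonneg (near K (swap a b * σ) b a)
        linarith
      · have hn := near_diff K σ b a hK hs
        rw [swap_comm] at hn
        rw [ind_true hn]
        have := ind_nonneg (near K σ b a)
        linarith
    have h4 := am_flip hF p M (fun σ a b => Θ (swap a b * σ) * ind (near K σ b a))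
    have h5 : am p M (fun σ a b => Θ (swap a b * σ) * ind (near K σ b a)) ≤ Q * β := by
      refine le_trans ?_ (mul_le_mul_of_nonneg_left h2 hQ0)
      rw [← am_smul]
      refine am_mono hp M fun σ a b => ?_
      rw [← mul_assoc]
      exact mul_le_mul_of_nonneg_right (hQ σ a b) (ind_nonneg _)
    have h6 : am p M (fun σ a b => Θ σ * ind (near K σ b a)) ≤ β := by
      refine le_trans ?_ h2
      refine am_mono hp M fun σ a b => ?_
      exact mul_le_mul_of_nonneg_right (hΘ' σ) (ind_nonneg _)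
    rw [am_add] at h3
    linarith

/-- first application: the exchanged labels are seldom close to each other -/
theorem am_nearw (hQ : S_QRW) (hM' : S_MARK) {p r : V → V → ℝ} {κ τ : ℝ} (hp : Wt p)
    (hr : Ker r κ) (hτ : 0 ≤ τ) (hc : Cmp p r τ) (m M K : ℕ) (hm : 2 ≤ m) (hM : 1 ≤ M)
    (hK : 1 ≤ K) (Θ : Perm V → ℝ) (bb : ℝ) (hΘ : ∀ g, 0 ≤ Θ g) (hbb : 0 ≤ bb)
    (hΘb : ∀ g, Θ g ≤ Real.exp bb * mean p M (fun w => Θ (wp w))) :
    am p M (fun σ a b => Θ σ * ind (near K σ a b)) ≤ 2 * (1 / m + (4 * K + 1) * κ +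
      (20 * Real.sqrt ((1 + τ) * (Fintype.card V * Real.log m + bb) / M) + 4 * κ)) *
        mean p M (fun w => Θ (wp w)) ∧
    am p M (fun σ a b => Θ σ * ind (near K σ b a)) ≤ 2 * (1 / m + (4 * K + 1) * κ +
      (20 * Real.sqrt ((1 + τ) * (Fintype.card V * Real.log m + bb) / M) + 4 * κ)) *
        mean p M (fun w => Θ (wp w)) := by
  obtain ⟨Ω, fΩ, P, c, hP0, hP1, hc1, hc2⟩ := hM' V m K (by omega) hK
  have hMr : (0 : ℝ) < M := by exact_mod_cast hM
  set Z : ℝ := mean p M (fun w => Θ (wp w)) with hZ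
  set E : ℝ := 20 * Real.sqrt ((1 + τ) * (Fintype.card V * Real.log m + bb) / M) + 4 * κ with hE
  set B : ℝ := 1 / m + (4 * K + 1) * κ with hB
  set φ : Perm V → V → V → ℝ := fun σ a z => ∑ ω, P ω * (if c σ ω a = c σ ω z then (1 : ℝ) else 0)
    with hφ
  have hφ0 : ∀ σ a b, 0 ≤ φ σ a b := by
    intro σ a b
    refine Finset.sum_nonneg fun ω _ => mul_nonneg (hP0 ω) ?_
    split_ifs <;> norm_num
  have hφs : ∀ σ a b, φ σ a b = φ σ b a := by
    intro σ a b
    refine Finset.sum_congr rfl fun ω _ => ?_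
    congr 1
    simp only [eq_comm]
  -- the inequality for each colouring
  set X : Ω → (Fin M → Lt V) → ℝ := fun ω w => (∑ j, ((if c (wp w) ω (la w j) = c (wp w) ω (lb w j)
      then (1 : ℝ) else 0) - gg p r (fun a b : Fin m => if a = b then (1 : ℝ) else 0)
        (c (wp w) ω ∘ pre w j))) / M with hX
  have hXω : ∀ ω, mean p M (fun w => Θ (wp w) * X ω w) ≤ E * Z := by
    intro ω
    have h := hQ V p r κ τ hp hr hτ hc m M hm hM Unit
      (fun _ a b => if a = b then (1 : ℝ) else 0)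
      (fun _ a b => by simp only [eq_comm]) (fun _ a b => by split_ifs <;> simp)
      (fun w => Θ (wp w)) (fun w => Θ (wp w)) bb (fun w => hΘ _) (fun w => le_rfl) hbb
      (fun w => hΘb _)
      (fun _ => ()) (fun w => c (wp w) ω)
    rw [Fintype.card_unit, Nat.cast_one, Real.log_one, add_zero] at h
    exact (le_abs_self _).trans h
  have h1 : mean p M (fun w => ∑ ω, P ω * (Θ (wp w) * X ω w)) ≤ E * Z := by
    rw [mean_sum]
    calc ∑ ω, mean p M (fun w => P ω * (Θ (wp w) * X ω w)) =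
          ∑ ω, P ω * mean p M (fun w => Θ (wp w) * X ω w) := by
          refine Finset.sum_congr rfl fun ω _ => ?_
          exact mean_smul p M (P ω) (fun w => Θ (wp w) * X ω w)
      _ ≤ ∑ ω, P ω * (E * Z) :=
          Finset.sum_le_sum fun ω _ => mul_le_mul_of_nonneg_left (hXω ω) (hP0 ω)
      _ = E * Z := by rw [← Finset.sum_mul, hP1, one_mul]
  have h2 : am p M (fun σ a b => Θ σ * φ σ a b) ≤ (E + B) * Z := by
    have h3 : ∀ w : Fin M → Lt V, (∑ j, Θ (wp w) * φ (wp w) (la w j) (lb w j)) / M ≤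
        (∑ ω, P ω * (Θ (wp w) * X ω w)) + B * Θ (wp w) := by
      intro w
      have e1 : ∑ ω, P ω * X ω w = (∑ j, φ (wp w) (la w j) (lb w j)) / M -
          (∑ j, ∑ ω, P ω * gg p r (fun a b : Fin m => if a = b then (1 : ℝ) else 0)
            (c (wp w) ω ∘ pre w j)) / M := by
        simp only [hX, hφ]
        rw [← sub_div, ← Finset.sum_sub_distrib]
        have e2 : ∀ ω, P ω * ((∑ j, ((if c (wp w) ω (la w j) = c (wp w) ω (lb w j)
            then (1 : ℝ) else 0) - gg p r (fun a b : Fin m => if a = b then (1 : ℝ) else 0)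
            (c (wp w) ω ∘ pre w j))) / M) = (∑ j, (P ω * (if c (wp w) ω (la w j) =
            c (wp w) ω (lb w j) then (1 : ℝ) else 0) - P ω * gg p r (fun a b : Fin m =>
            if a = b then (1 : ℝ) else 0) (c (wp w) ω ∘ pre w j))) / M := by
          intro ω
          rw [← mul_div_assoc, Finset.mul_sum]
          congr 1
          refine Finset.sum_congr rfl fun j _ => ?_
          ring
        rw [Finset.sum_congr rfl fun ω _ => e2 ω, ← Finset.sum_div, Finset.sum_comm]
        congr 1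
        refine Finset.sum_congr rfl fun j _ => ?_
        rw [Finset.sum_sub_distrib]
      have e3 : (∑ j : Fin M, ∑ ω, P ω * gg p r (fun a b : Fin m => if a = b then (1 : ℝ) else 0)
            (c (wp w) ω ∘ pre w j)) / M ≤ B := by
        rw [div_le_iff₀ hMr]
        have e4 : ∑ j : Fin M, ∑ ω, P ω * gg p r (fun a b : Fin m => if a = b then (1 : ℝ) else 0)
              (c (wp w) ω ∘ pre w j) ≤ ∑ _j : Fin M, B := by
          refine Finset.sum_le_sum fun j _ => ?_
          exact gg_bound hp hr P (c (wp w)) B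
            (fun a q h0 h1 h2 => hc2 (wp w) a q κ h0 h1 h2) (pre w j)
        have e5 : ∑ _j : Fin M, B = B * M := by
          rw [Finset.sum_const, Finset.card_univ, Fintype.card_fin, nsmul_eq_mul, mul_comm]
        linarith
      have e6 : (∑ j, Θ (wp w) * φ (wp w) (la w j) (lb w j)) / M =
          Θ (wp w) * ((∑ j, φ (wp w) (la w j) (lb w j)) / M) := by
        rw [← Finset.mul_sum, mul_div_assoc]
      have e7 : ∑ ω, P ω * (Θ (wp w) * X ω w) = Θ (wp w) * ∑ ω, P ω * X ω w := by
        rw [Finset.mul_sum]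
        exact Finset.sum_congr rfl fun ω _ => by ring
      rw [e6, e7, mul_comm B, ← mul_add]
      refine mul_le_mul_of_nonneg_left ?_ (hΘ _)
      rw [e1]
      linarith
    have h4 := mean_mono hp M h3
    rw [mean_add, mean_smul] at h4
    have h5 : am p M (fun σ a b => Θ σ * φ σ a b) =
        mean p M (fun w => (∑ j, Θ (wp w) * φ (wp w) (la w j) (lb w j)) / M) := rfl
    rw [h5, add_mul]
    linarith
  have h5 : ∀ σ a b, ind (near K σ a b) ≤ 2 * φ σ a b := by
    intro σ a b
    refine ind_le _ _ (mul_nonneg (by norm_num) (hφ0 σ a b)) fun hn => ?_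
    have := hc1 σ a b hn
    have h6 : (1 : ℝ) / 2 ≤ φ σ a b := this
    linarith
  have h7 : 2 * am p M (fun σ a b => Θ σ * φ σ a b) ≤ 2 * (B + E) * Z := by
    nlinarith [h2]
  constructor
  · calc am p M (fun σ a b => Θ σ * ind (near K σ a b)) ≤
          am p M (fun σ a b => 2 * (Θ σ * φ σ a b)) :=
          am_mono hp M fun σ a b => by
            have := mul_le_mul_of_nonneg_left (h5 σ a b) (hΘ σ)
            linarith
      _ = 2 * am p M (fun σ a b => Θ σ * φ σ a b) := am_smul p M 2 _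
      _ ≤ 2 * (B + E) * Z := h7
  · calc am p M (fun σ a b => Θ σ * ind (near K σ b a)) ≤
          am p M (fun σ a b => 2 * (Θ σ * φ σ a b)) :=
          am_mono hp M fun σ a b => by
            have h8 := h5 σ b a
            rw [hφs σ b a] at h8
            have := mul_le_mul_of_nonneg_left h8 (hΘ σ)
            linarith
      _ = 2 * am p M (fun σ a b => Θ σ * φ σ a b) := am_smul p M 2 _
      _ ≤ 2 * (B + E) * Z := h7

end

open Classical in
/-- **RSW-SMALLW.** -/
theorem smallw (h1 : S_QRW) (h2 : S_FLIP) (h3 : S_MARK) : S_SMALLW := by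
  refine ⟨200, by norm_num, ?_⟩
  intro V _ _ _ p r κ τ hp hr hτ hc m M K hm hM hK Θ Θ' bb Q hΘ hΘΘ hQ1 hQ hbb hΘb
  have hMr : (0 : ℝ) < M := by exact_mod_cast hM
  have hn : (0 : ℝ) < Fintype.card V := by exact_mod_cast Fintype.card_pos
  have hκ : 0 ≤ κ := by
    obtain ⟨v⟩ := ‹Nonempty V›
    exact (hr.nn v v).trans (hr.le v v)
  have hΘ'0 : ∀ g, 0 ≤ Θ' g := fun g => (hΘ g).trans (hΘΘ g)
  obtain ⟨n1, n2⟩ := am_nearw h1 h3 hp hr hτ hc m M K hm hM hK Θ' bb hΘ'0 hbb hΘb
  set Z : ℝ := mean p M (fun w => Θ' (wp w)) with hZ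
  have hZ0 : 0 ≤ Z := by
    have := mean_mono hp M (F := fun _ => 0) (G := fun w => Θ' (wp w)) (fun w => hΘ'0 _)
    rwa [mean_const hp] at this
  set S : ℝ := Real.sqrt ((1 + τ) * (Fintype.card V * Real.log m + bb) / M) with hS
  obtain ⟨c1, c2⟩ := am_clw h2 hp M K _ Q Θ Θ' hΘ hΘΘ hQ1 hQ n1 n2
  have q := h1 V p r κ τ hp hr hτ hc 2 M le_rfl hM Unit
    (fun _ a b => ((if a = 1 then (1 : ℝ) else 0) + (if b = 1 then (1 : ℝ) else 0)) / 2)
    (fun _ a b => by ring) (fun _ a b => by
      split_ifs <;> norm_num [abs_of_nonneg])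
    (fun w => Θ (wp w)) (fun w => Θ' (wp w)) bb (fun w => hΘ _) (fun w => hΘΘ _) hbb
    (fun w => hΘb _)
    (fun _ => ()) (fun w v => if cl (wp w) v ≤ K then (1 : Fin 2) else 0)
  rw [Fintype.card_unit, Nat.cast_one, Real.log_one, add_zero] at q
  have hS2 : Real.sqrt ((1 + τ) * (Fintype.card V * Real.log ((2 : ℕ) : ℝ) + bb) / M) ≤ S := by
    rw [hS]
    refine Real.sqrt_le_sqrt ?_
    have hl : Real.log ((2 : ℕ) : ℝ) ≤ Real.log m :=
      Real.log_le_log (by norm_num) (by exact_mod_cast hm)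
    have h1τ : 0 ≤ 1 + τ := by linarith
    gcongr
  have q1 := (neg_abs_le _).trans' (neg_le_neg q)
  have q2 : mean p M (fun w => Θ (wp w) * (small K (wp w) / 2)) ≤
      am p M (fun σ a b => (Θ σ * ind (cl σ a ≤ K) + Θ σ * ind (cl σ b ≤ K)) / 2) +
        (20 * Real.sqrt ((1 + τ) * (Fintype.card V * Real.log ((2 : ℕ) : ℝ) + bb) / M) +
          4 * κ) * Z := by
    have e1 : ∀ w : Fin M → Lt V,
        Θ (wp w) * (small K (wp w) / 2) + Θ (wp w) *
          ((∑ j, ((((if (if cl (wp w) (la w j) ≤ K then (1 : Fin 2) else 0) = 1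
          then (1 : ℝ) else 0) + (if (if cl (wp w) (lb w j) ≤ K then (1 : Fin 2) else 0) = 1
          then (1 : ℝ) else 0)) / 2) -
        gg p r (fun a b : Fin 2 => ((if a = 1 then (1 : ℝ) else 0) +
          (if b = 1 then (1 : ℝ) else 0)) / 2)
          ((fun v => if cl (wp w) v ≤ K then (1 : Fin 2) else 0) ∘ pre w j))) / M) ≤
        (∑ j, (Θ (wp w) * ind (cl (wp w) (la w j) ≤ K) +
          Θ (wp w) * ind (cl (wp w) (lb w j) ≤ K)) / 2) / M := by
      intro w
      have e2 : small K (wp w) / 2 = (∑ _j : Fin M, small K (wp w) / 2) / M := by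
        rw [Finset.sum_const, Finset.card_univ, Fintype.card_fin, nsmul_eq_mul]
        field_simp
      have e9 : (∑ j, (Θ (wp w) * ind (cl (wp w) (la w j) ≤ K) +
          Θ (wp w) * ind (cl (wp w) (lb w j) ≤ K)) / 2) / (M : ℝ) =
          Θ (wp w) * ((∑ j, (ind (cl (wp w) (la w j) ≤ K) +
            ind (cl (wp w) (lb w j) ≤ K)) / 2) / M) := by
        rw [← mul_div_assoc, Finset.mul_sum]
        congr 1
        exact Finset.sum_congr rfl fun j _ => by ring
      rw [e9, ← mul_add]
      refine mul_le_mul_of_nonneg_left ?_ (hΘ _)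
      rw [e2, ← add_div, ← Finset.sum_add_distrib]
      refine div_le_div_of_nonneg_right ?_ hMr.le
      refine Finset.sum_le_sum fun j _ => ?_
      have h4 := gg_small hp hr K (wp w) (pre w j)
      have h5 : ∀ v, (if (if cl (wp w) v ≤ K then (1 : Fin 2) else 0) = 1
          then (1 : ℝ) else 0) = ind (cl (wp w) v ≤ K) := by
        intro v
        unfold ind
        by_cases hv : cl (wp w) v ≤ K <;> simp [hv]
      rw [h5, h5]
      linarith
    have e3 := mean_mono hp M e1
    rw [mean_add] at e3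
    have e4 : mean p M (fun w => (∑ j, (Θ (wp w) * ind (cl (wp w) (la w j) ≤ K) +
        Θ (wp w) * ind (cl (wp w) (lb w j) ≤ K)) / 2) / M) =
        am p M (fun σ a b => (Θ σ * ind (cl σ a ≤ K) + Θ σ * ind (cl σ b ≤ K)) / 2) := rfl
    rw [e4] at e3
    linarith
  have q3 : am p M (fun σ a b => (Θ σ * ind (cl σ a ≤ K) + Θ σ * ind (cl σ b ≤ K)) / 2) =
      (am p M (fun σ a _ => Θ σ * ind (cl σ a ≤ K)) +
        am p M (fun σ _ b => Θ σ * ind (cl σ b ≤ K))) / 2 := by
    have e := am_smul p M (1 / 2) (fun σ a b => Θ σ * ind (cl σ a ≤ K) + Θ σ * ind (cl σ b ≤ K))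
    rw [am_add] at e
    have e' : (fun (σ : Perm V) (a b : V) =>
        (Θ σ * ind (cl σ a ≤ K) + Θ σ * ind (cl σ b ≤ K)) / 2) =
        fun σ a b => 1 / 2 * (Θ σ * ind (cl σ a ≤ K) + Θ σ * ind (cl σ b ≤ K)) := by
      funext σ a b
      ring
    rw [e', e]
    ring
  have q4 : mean p M (fun w => Θ (wp w) * small K (wp w)) =
      2 * mean p M (fun w => Θ (wp w) * (small K (wp w) / 2)) := by
    rw [← mean_smul]
    congr 1
    funext w
    ring
  have hS0 : 0 ≤ S := Real.sqrt_nonneg _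
  have hKr : (1 : ℝ) ≤ K := by exact_mod_cast hK
  have hm0 : (0 : ℝ) ≤ 1 / m := by positivity
  have hKκ : κ ≤ K * κ := by nlinarith
  rw [q4]
  rw [q3] at q2
  -- the constants
  set T : ℝ := 1 / m + K * κ + S with hT
  have hT0 : 0 ≤ T := by
    have : 0 ≤ (K : ℝ) * κ := by positivity
    rw [hT]; linarith
  set β : ℝ := 1 / m + (4 * K + 1) * κ + (20 * S + 4 * κ) with hβ
  have hβ1 : β ≤ 20 * T := by
    rw [hβ, hT]
    nlinarith
  have hβ2 : 20 * Real.sqrt ((1 + τ) * (Fintype.card V * Real.log ((2 : ℕ) : ℝ) + bb) / M) +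
      4 * κ ≤ 20 * T := by
    rw [hT]
    linarith
  have hc3 : (1 + Q) * (2 * β * Z) ≤ 80 * Q * T * Z := by
    have a1 : (1 + Q) * (2 * β) ≤ 80 * Q * T := by
      have a2 : (1 + Q) * (2 * β) ≤ (1 + Q) * (2 * (20 * T)) :=
        mul_le_mul_of_nonneg_left (by linarith) (by linarith)
      have a3 : (1 + Q) * (2 * (20 * T)) ≤ (2 * Q) * (2 * (20 * T)) :=
        mul_le_mul_of_nonneg_right (by linarith) (by linarith)
      linarith
    have := mul_le_mul_of_nonneg_right a1 hZ0
    linarith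
  have hc4 : (20 * Real.sqrt ((1 + τ) * (Fintype.card V * Real.log ((2 : ℕ) : ℝ) + bb) / M) +
      4 * κ) * Z ≤ 20 * Q * T * Z := by
    refine mul_le_mul_of_nonneg_right ?_ hZ0
    refine hβ2.trans ?_
    have : T ≤ Q * T := le_mul_of_one_le_left hT0 hQ1
    linarith
  show 2 * mean p M (fun w => Θ (wp w) * (small K (wp w) / 2)) ≤ 200 * Q * T * Z
  linarith [q2, c1, c2, hc3, hc4]

end Pool.Agent.Y727.RS
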