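import Pool.Agent.Y291.RS.Niv
import Pool.Agent.Y105.RS.StmC

/-! Project RS (helper105), part RSW-NIVW: the law of the induced permutation of `k` random points
with the weight `ϑ ^ (number of cycles)` is almost invariant. Adaptation of
`Pool.Agent.Y291.RS.Niv` (helper291), by helper727. -/

set_option autoImplicit false
set_option linter.unusedSectionVars false

open Finset Equiv

namespace Pool.Agent.Y727.RS

open Pool.Agent.Y105.RS Pool.Agent.Y291.RS

section base

variable {V : Type} [Fintype V] [DecidableEq V] {k R : ℕ}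

lemma mean_mul_right (p : V → V → ℝ) {M : ℕ} (c : ℝ) (F : (Fin M → Lt V) → ℝ) :
    mean p M (fun w => F w * c) = mean p M F * c := by
  have h := mean_smul p c F
  rw [mul_comm] at h
  rw [← h]
  congr 1
  funext w
  ring

/-- the bound of the quasirandomness -/
noncomputable def erw (n τ b : ℝ) (m M : ℕ) : ℝ :=
  20 * Real.sqrt ((1 + τ) * (n * Real.log m +
    Real.log (Fintype.card (Fin m → Fin m → Bool)) + b) / M) + 4 * (1 / n)

lemma keyw (hQR : S_QRW) (hINV : S_INV) [Nonempty V] {p : V → V → ℝ} (hp : Wt p) {τ : ℝ}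
    (hτ : 0 ≤ τ) (hC : Cmp p (fun _ _ => 1 / (Fintype.card V : ℝ)) τ) {m M : ℕ}
    (hm : k + R + 1 ≤ m) (hm2 : 2 ≤ m) (hM : 1 ≤ M) {i j : Fin k} (hij : i ≠ j)
    (π : Perm (Fin k)) (z : Fin k → V) (u : Fin R → V) (Θ : Perm V → ℝ) (bb : ℝ)
    (hΘ : ∀ g, 0 ≤ Θ g) (hbb : 0 ≤ bb)
    (hΘb : ∀ g, Θ g ≤ Real.exp bb * mean p M (fun w => Θ (wp w))) :
    |mean p M (fun w => Θ (wp w) * ((∑ l, (G i j π u z (wp w) (la w l) (lb w l) +
        G i j π u z (wp w) (lb w l) (la w l)) / 2) / M)) -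
      mean p M (fun w => Θ (wp w) *
        ((∑ a, ∑ b, G i j π u z (wp w) a b) / (Fintype.card V : ℝ) ^ 2))| ≤
      erw (Fintype.card V) τ bb m M * mean p M (fun w => Θ (wp w)) := by
  classical
  set D := marks z i j u with hD
  -- the colours
  have hcard : Fintype.card (Finset.insertNone D) ≤ Fintype.card (Fin m) := by
    rw [Fintype.card_coe, Finset.card_insertNone, Fintype.card_fin]
    have hle : D.card ≤ k + R := card_marks_le i j z u
    omega
  obtain ⟨e⟩ := Function.Embedding.nonempty_of_card_le hcard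
  let c : (Fin M → Lt V) → V → Fin m := fun w a => e ⟨cls (wp w) D a, cls_mem⟩
  let t : (Fin M → Lt V) → (Fin m → Fin m → Bool) := fun w x y =>
    decide (∃ a b, c w a = x ∧ c w b = y ∧ Q i j π u (wp w) (Fl i j z a b))
  let h : (Fin m → Fin m → Bool) → Fin m → Fin m → ℝ := fun s x y =>
    ((if s x y then 1 else 0) + (if s y x then 1 else 0)) / 2
  have ht : ∀ w a b, (if t w (c w a) (c w b) then (1 : ℝ) else 0) = G i j π u z (wp w) a b := by
    intro w a b
    unfold G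
    have hiff : t w (c w a) (c w b) = true ↔ Q i j π u (wp w) (Fl i j z a b) := by
      simp only [t, decide_eq_true_eq]
      constructor
      · rintro ⟨a', b', h1, h2, h3⟩
        have h1' : cls (wp w) D a' = cls (wp w) D a := by
          have := e.injective h1
          simpa using this
        have h2' : cls (wp w) D b' = cls (wp w) D b := by
          have := e.injective h2
          simpa using this
        exact Q_of_cls hINV hij h1'.symm h2'.symm h3
      · intro h3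
        exact ⟨a, b, rfl, rfl, h3⟩
    simp only [hiff]
  have hh : ∀ w a b, h (t w) (c w a) (c w b) =
      (G i j π u z (wp w) a b + G i j π u z (wp w) b a) / 2 := by
    intro w a b
    simp only [h, ht]
  have hgg : ∀ w l, gg p (fun _ _ => 1 / (Fintype.card V : ℝ)) (h (t w)) (c w ∘ pre w l) =
      (∑ a, ∑ b, G i j π u z (wp w) a b) / (Fintype.card V : ℝ) ^ 2 := by
    intro w l
    rw [gg_const hp]
    congr 1
    simp only [hh]
    have h1 : ∑ a, ∑ b, (G i j π u z (wp w) a b + G i j π u z (wp w) b a) / 2 =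
        (∑ a, ∑ b, G i j π u z (wp w) a b) / 2 + (∑ a, ∑ b, G i j π u z (wp w) b a) / 2 := by
      simp only [Finset.sum_div, ← Finset.sum_add_distrib, add_div]
    rw [h1, Finset.sum_comm (f := fun a b => G i j π u z (wp w) b a)]
    ring
  have main := hQR V p (fun _ _ => 1 / (Fintype.card V : ℝ)) (1 / (Fintype.card V : ℝ)) τ hp
    ker_const hτ hC m M hm2 hM (Fin m → Fin m → Bool) h
    (fun s x y => by simp only [h]; ring)
    (fun s x y => by
      simp only [h]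
      rw [abs_le]
      split_ifs <;> norm_num) (fun w => Θ (wp w)) (fun w => Θ (wp w)) bb (fun w => hΘ _)
      (fun w => le_rfl) hbb (fun w => hΘb _) t c
  rw [← mean_sub]
  have hMpos : (0 : ℝ) < M := by exact_mod_cast hM
  have heq : (fun w => Θ (wp w) * ((∑ l, (G i j π u z (wp w) (la w l) (lb w l) +
        G i j π u z (wp w) (lb w l) (la w l)) / 2) / (M : ℝ)) -
      Θ (wp w) * ((∑ a, ∑ b, G i j π u z (wp w) a b) / (Fintype.card V : ℝ) ^ 2)) =
      (fun w => Θ (wp w) * ((∑ l, (h (t w) (c w (la w l)) (c w (lb w l)) -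
        gg p (fun _ _ => 1 / (Fintype.card V : ℝ)) (h (t w)) (c w ∘ pre w l))) / (M : ℝ))) := by
    funext w
    rw [← mul_sub]
    congr 1
    simp only [hgg, hh, Finset.sum_sub_distrib, Finset.sum_const, Finset.card_univ,
      Fintype.card_fin, nsmul_eq_mul]
    field_simp
  rw [heq]
  exact main

lemma nc_eq (hNC : S_NC) {i j : Fin k} (hij : i ≠ j) (π : Perm (Fin k)) (u : Fin R → V)
    (z : Fin k → V) (g : Perm V) (a b : V)
    (hQ : Q i j (swap i j * π) u g (Fl i j z a b)) :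
    nc (swap a b * g) + nc (swap i j * π) = nc g + nc π := by
  obtain ⟨hinj, hind, -⟩ := hQ
  obtain ⟨-, -, h3, h4⟩ := hNC
  have hab : a ≠ b := by
    intro h
    apply hij
    apply hinj
    rw [Fl_i hij, Fl_j, h]
  have h5 := h4 V g k (Fl i j z a b) (swap i j * π) hinj hind i j
  rw [Fl_i hij, Fl_j] at h5
  obtain ⟨-, h6, h7⟩ := h3 V g a b hab
  obtain ⟨-, h8, h9⟩ := h3 (Fin k) (swap i j * π) i j hij
  rw [← mul_assoc, swap_mul_self, one_mul] at h8 h9
  by_cases hs : g.SameCycle a b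
  · have e1 := h7 hs
    have e2 := h9 (h5.1 hs)
    omega
  · have e1 := h6 hs
    have e2 := h8 (fun h => hs (h5.2 h))
    omega

lemma G_nc (hNC : S_NC) {i j : Fin k} (hij : i ≠ j) (π : Perm (Fin k)) (u : Fin R → V)
    (z : Fin k → V) (g : Perm V) (a b : V) (ϑ : ℝ) :
    ϑ ^ nc (swap a b * g) * G i j (swap i j * π) u z g a b * ϑ ^ nc (swap i j * π) =
      ϑ ^ nc g * G i j (swap i j * π) u z g a b * ϑ ^ nc π := by
  by_cases h : Q i j (swap i j * π) u g (Fl i j z a b)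
  · have e := nc_eq hNC hij π u z g a b h
    have e2 : ϑ ^ nc (swap a b * g) * ϑ ^ nc (swap i j * π) = ϑ ^ nc g * ϑ ^ nc π := by
      rw [← pow_add, ← pow_add, e]
    have e3 : G i j (swap i j * π) u z g a b = 1 := by
      unfold G
      rw [if_pos h]
    rw [e3, mul_one, mul_one, e2]
  · have e3 : G i j (swap i j * π) u z g a b = 0 := by
      unfold G
      rw [if_neg h]
    rw [e3, mul_zero, mul_zero, zero_mul, zero_mul]

lemma flip_eqw (hFLIP : S_FLIP) (hIND : S_IND) (hNC : S_NC) (p : V → V → ℝ) {M : ℕ}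
    {i j : Fin k} (hij : i ≠ j) (π : Perm (Fin k)) (z : Fin k → V) (u : Fin R → V) (ϑ : ℝ) :
    mean p M (fun w => ϑ ^ nc (wp w) * ((∑ l, (G i j π u z (wp w) (la w l) (lb w l) +
        G i j π u z (wp w) (lb w l) (la w l)) / 2) / M)) * ϑ ^ nc (swap i j * π) =
      mean p M (fun w => ϑ ^ nc (wp w) *
        ((∑ l, (G i j (swap i j * π) u z (wp w) (la w l) (lb w l) +
        G i j (swap i j * π) u z (wp w) (lb w l) (la w l)) / 2) / M)) * ϑ ^ nc π := by
  have h1 : ∀ F : Fin M → (Fin M → Lt V) → ℝ,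
      mean p M (fun w => ϑ ^ nc (wp w) * ((∑ l, F l w / 2) / M)) =
      (1 / M) * ∑ l, (1 / 2) * mean p M (fun w => ϑ ^ nc (wp w) * F l w) := by
    intro F
    have : (fun w : Fin M → Lt V => ϑ ^ nc (wp w) * ((∑ l, F l w / 2) / (M : ℝ))) =
        fun w => (1 / (M : ℝ)) * ∑ l, (1 / 2) * (ϑ ^ nc (wp w) * F l w) := by
      funext w
      rw [div_eq_mul_inv, one_div, mul_comm, mul_comm _ ((M : ℝ)⁻¹), mul_assoc]
      congr 1
      rw [Finset.sum_mul]
      refine Finset.sum_congr rfl fun l _ => ?_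
      ring
    rw [this, mean_smul, mean_sum]
    congr 1
    refine Finset.sum_congr rfl fun l _ => ?_
    rw [mean_smul]
  rw [h1, h1, mul_assoc, mul_assoc, Finset.sum_mul, Finset.sum_mul]
  congr 1
  refine Finset.sum_congr rfl fun l _ => ?_
  rw [mul_assoc, mul_assoc]
  congr 1
  have h2 := hFLIP V p M l
    (fun σ a b => ϑ ^ nc σ * (G i j π u z σ a b + G i j π u z σ b a))
  simp only [G_swap hIND hij, G_swap' hIND hij] at h2
  have h2' : mean p M (fun w => ϑ ^ nc (wp w) * (G i j π u z (wp w) (la w l) (lb w l) +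
      G i j π u z (wp w) (lb w l) (la w l))) = mean p M (fun w =>
      ϑ ^ nc (swap (la w l) (lb w l) * wp w) *
        (G i j (swap i j * π) u z (wp w) (la w l) (lb w l) +
          G i j (swap i j * π) u z (wp w) (lb w l) (la w l))) := h2
  rw [h2', ← mean_mul_right, ← mean_mul_right]
  congr 1
  funext w
  have e1 := G_nc hNC hij π u z (wp w) (la w l) (lb w l) ϑ
  have e2 := G_nc hNC hij π u z (wp w) (lb w l) (la w l) ϑ
  rw [swap_comm (lb w l) (la w l)] at e2
  rw [mul_add, mul_add, add_mul, add_mul, e1, e2]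

lemma basew (hQR : S_QRW) (hFLIP : S_FLIP) (hIND : S_IND) (hINV : S_INV) (hNC : S_NC)
    [Nonempty V] {p : V → V → ℝ} (hp : Wt p) {τ : ℝ}
    (hτ : 0 ≤ τ) (hC : Cmp p (fun _ _ => 1 / (Fintype.card V : ℝ)) τ) {m M : ℕ}
    (hm : k + R + 1 ≤ m) (hm2 : 2 ≤ m) (hM : 1 ≤ M) {i j : Fin k} (hij : i ≠ j)
    (π : Perm (Fin k)) (z : Fin k → V) (u : Fin R → V) (ϑ bb : ℝ) (hϑ : 0 < ϑ) (hbb : 0 ≤ bb)
    (hΘb : ∀ g : Perm V, ϑ ^ nc g ≤ Real.exp bb * mean p M (fun w => ϑ ^ nc (wp w))) :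
    |mean p M (fun w => ϑ ^ nc (wp w) *
        ((∑ a, ∑ b, G i j π u z (wp w) a b) / (Fintype.card V : ℝ) ^ 2)) *
          ϑ ^ nc (swap i j * π) -
      mean p M (fun w => ϑ ^ nc (wp w) * ((∑ a, ∑ b, G i j (swap i j * π) u z (wp w) a b) /
        (Fintype.card V : ℝ) ^ 2)) * ϑ ^ nc π| ≤
      (ϑ ^ nc (swap i j * π) + ϑ ^ nc π) * (erw (Fintype.card V) τ bb m M *
        mean p M (fun w => ϑ ^ nc (wp w))) := by
  have h1 := keyw hQR hINV hp hτ hC hm hm2 hM hij π z u (fun g => ϑ ^ nc g) bb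
    (fun g => by positivity) hbb hΘb
  have h2 := keyw hQR hINV hp hτ hC hm hm2 hM hij (swap i j * π) z u (fun g => ϑ ^ nc g) bb
    (fun g => by positivity) hbb hΘb
  have h3 := flip_eqw (R := R) (M := M) hFLIP hIND hNC p hij π z u ϑ
  set c' : ℝ := ϑ ^ nc (swap i j * π) with hc'
  set c : ℝ := ϑ ^ nc π with hc
  have hc0 : 0 ≤ c := by rw [hc]; positivity
  have hc'0 : 0 ≤ c' := by rw [hc']; positivity
  rw [abs_le] at h1 h2 ⊢
  have a1 := mul_le_mul_of_nonneg_right h1.1 hc'0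
  have a2 := mul_le_mul_of_nonneg_right h1.2 hc'0
  have a3 := mul_le_mul_of_nonneg_right h2.1 hc0
  have a4 := mul_le_mul_of_nonneg_right h2.2 hc0
  constructor <;> linarith [a1, a2, a3, a4, h3]

open scoped Classical in
lemma midw (hQR : S_QRW) (hFLIP : S_FLIP) (hIND : S_IND) (hINV : S_INV) (hNC : S_NC)
    [Nonempty V] {p : V → V → ℝ} (hp : Wt p) {τ : ℝ}
    (hτ : 0 ≤ τ) (hC : Cmp p (fun _ _ => 1 / (Fintype.card V : ℝ)) τ) {m M : ℕ}
    (hm : k + R + 1 ≤ m) (hm2 : 2 ≤ m) (hM : 1 ≤ M) {i j : Fin k} (hij : i ≠ j)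
    (π : Perm (Fin k)) (ϑ bb : ℝ) (hϑ : 0 < ϑ) (hbb : 0 ≤ bb)
    (hΘb : ∀ g : Perm V, ϑ ^ nc g ≤ Real.exp bb * mean p M (fun w => ϑ ^ nc (wp w))) :
    |mean p M (fun w => ϑ ^ nc (wp w) * ((∑ u : Fin R → V, ∑ z : Fin k → V,
        (if Q i j π u (wp w) z then (1 : ℝ) else 0)) / (Fintype.card V : ℝ) ^ (k + R))) *
          ϑ ^ nc (swap i j * π) -
      mean p M (fun w => ϑ ^ nc (wp w) * ((∑ u : Fin R → V, ∑ z : Fin k → V,
        (if Q i j (swap i j * π) u (wp w) z then (1 : ℝ) else 0)) /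
          (Fintype.card V : ℝ) ^ (k + R))) * ϑ ^ nc π| ≤
      (ϑ ^ nc (swap i j * π) + ϑ ^ nc π) * (erw (Fintype.card V) τ bb m M *
        mean p M (fun w => ϑ ^ nc (wp w))) := by
  have hn : (0 : ℝ) < (Fintype.card V : ℝ) := by exact_mod_cast Fintype.card_pos
  have hex : ∀ ρ : Perm (Fin k), mean p M (fun w => ϑ ^ nc (wp w) *
      ((∑ u : Fin R → V, ∑ z : Fin k → V,
        (if Q i j ρ u (wp w) z then (1 : ℝ) else 0)) / (Fintype.card V : ℝ) ^ (k + R))) =
      (1 / (Fintype.card V : ℝ) ^ (k + R)) * ∑ u : Fin R → V, ∑ z : Fin k → V,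
        mean p M (fun w => ϑ ^ nc (wp w) *
          ((∑ a, ∑ b, G i j ρ u z (wp w) a b) / (Fintype.card V : ℝ) ^ 2)) := by
    intro ρ
    simp only [sumQ]
    have : (fun w : Fin M → Lt V => ϑ ^ nc (wp w) * ((1 / (Fintype.card V : ℝ) ^ (k + R)) *
        ∑ u : Fin R → V, ∑ z : Fin k → V,
          (∑ a, ∑ b, G i j ρ u z (wp w) a b) / (Fintype.card V : ℝ) ^ 2)) =
        fun w => (1 / (Fintype.card V : ℝ) ^ (k + R)) * ∑ u : Fin R → V, ∑ z : Fin k → V,
          (ϑ ^ nc (wp w) * ((∑ a, ∑ b, G i j ρ u z (wp w) a b) /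
            (Fintype.card V : ℝ) ^ 2)) := by
      funext w
      rw [mul_left_comm]
      congr 1
      simp only [Finset.mul_sum]
    rw [this]
    simp only [mean_smul, mean_sum]
  rw [hex π, hex (swap i j * π)]
  rw [mul_assoc, mul_assoc, ← mul_sub, Finset.sum_mul, Finset.sum_mul,
    ← Finset.sum_sub_distrib, abs_mul, abs_of_pos (by positivity)]
  set W : ℝ := (ϑ ^ nc (swap i j * π) + ϑ ^ nc π) * (erw (Fintype.card V) τ bb m M *
        mean p M (fun w => ϑ ^ nc (wp w))) with hW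
  have h1 : |∑ u : Fin R → V, ((∑ z : Fin k → V, mean p M (fun w => ϑ ^ nc (wp w) *
      ((∑ a, ∑ b, G i j π u z (wp w) a b) / (Fintype.card V : ℝ) ^ 2))) *
        ϑ ^ nc (swap i j * π) -
      (∑ z : Fin k → V, mean p M (fun w => ϑ ^ nc (wp w) *
      ((∑ a, ∑ b, G i j (swap i j * π) u z (wp w) a b) / (Fintype.card V : ℝ) ^ 2))) *
        ϑ ^ nc π)| ≤
      ∑ _u : Fin R → V, ∑ _z : Fin k → V, W := by
    refine (Finset.abs_sum_le_sum_abs _ _).trans (Finset.sum_le_sum fun u _ => ?_)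
    rw [Finset.sum_mul, Finset.sum_mul, ← Finset.sum_sub_distrib]
    refine (Finset.abs_sum_le_sum_abs _ _).trans (Finset.sum_le_sum fun z _ => ?_)
    exact basew hQR hFLIP hIND hINV hNC hp hτ hC hm hm2 hM hij π z u ϑ bb hϑ hbb hΘb
  refine (mul_le_mul_of_nonneg_left h1 (by positivity)).trans (le_of_eq ?_)
  rw [Finset.sum_const, Finset.sum_const, Finset.card_univ, Finset.card_univ, nsmul_eq_mul,
    nsmul_eq_mul, Fintype.card_fun, Fintype.card_fun, Fintype.card_fin, Fintype.card_fin, pow_add]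
  push_cast
  field_simp

lemma totalw (hQR : S_QRW) (hFLIP : S_FLIP) (hIND : S_IND) (hINV : S_INV) (hCNT : S_CNT)
    (hNC : S_NC) [Nonempty V] {p : V → V → ℝ} (hp : Wt p) {τ : ℝ}
    (hτ : 0 ≤ τ) (hC : Cmp p (fun _ _ => 1 / (Fintype.card V : ℝ)) τ) {m M K : ℕ}
    (hR : 1 ≤ R) (hK : K ≤ Fintype.card V)
    (hm : k + R + 1 ≤ m) (hm2 : 2 ≤ m) (hM : 1 ≤ M) {i j : Fin k} (hij : i ≠ j)
    (π : Perm (Fin k)) (ϑ bb : ℝ) (hϑ : 0 < ϑ) (hbb : 0 ≤ bb)
    (hΘb : ∀ g : Perm V, ϑ ^ nc g ≤ Real.exp bb * mean p M (fun w => ϑ ^ nc (wp w))) :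
    |mean p M (fun w => ϑ ^ nc (wp w) * tup k (wp w) π) * ϑ ^ nc (swap i j * π) -
      mean p M (fun w => ϑ ^ nc (wp w) * tup k (wp w) (swap i j * π)) * ϑ ^ nc π| ≤
      (ϑ ^ nc (swap i j * π) + ϑ ^ nc π) * (((2 * (k + R) + 2) / Fintype.card V +
        2 * (1 - (K : ℝ) / Fintype.card V) ^ R + 2 / (R + 1)) *
          mean p M (fun w => ϑ ^ nc (wp w)) +
          2 * mean p M (fun w => ϑ ^ nc (wp w) * small K (wp w)) +
        erw (Fintype.card V) τ bb m M * mean p M (fun w => ϑ ^ nc (wp w))) := by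
  classical
  have hn : (0 : ℝ) < (Fintype.card V : ℝ) := by exact_mod_cast Fintype.card_pos
  have h1 : ∀ ρ : Perm (Fin k), |mean p M (fun w => ϑ ^ nc (wp w) * tup k (wp w) ρ) -
      mean p M (fun w => ϑ ^ nc (wp w) * ((∑ u : Fin R → V, ∑ z : Fin k → V,
        (if Q i j ρ u (wp w) z then (1 : ℝ) else 0)) / (Fintype.card V : ℝ) ^ (k + R)))| ≤
      ((2 * (k + R) + 2) / Fintype.card V +
        2 * (1 - (K : ℝ) / Fintype.card V) ^ R + 2 / (R + 1)) *
          mean p M (fun w => ϑ ^ nc (wp w)) +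
          2 * mean p M (fun w => ϑ ^ nc (wp w) * small K (wp w)) := by
    intro ρ
    have h2 : ∀ w : Fin M → Lt V, |ϑ ^ nc (wp w) * tup k (wp w) ρ -
        ϑ ^ nc (wp w) * ((∑ u : Fin R → V, ∑ z : Fin k → V,
        (if Q i j ρ u (wp w) z then (1 : ℝ) else 0)) / (Fintype.card V : ℝ) ^ (k + R))| ≤
        ((2 * (k + R) + 2) / Fintype.card V + 2 * (1 - (K : ℝ) / Fintype.card V) ^ R +
          2 / (R + 1)) * ϑ ^ nc (wp w) + 2 * (ϑ ^ nc (wp w) * small K (wp w)) := by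
      intro w
      have hpos : 0 < ϑ ^ nc (wp w) := by positivity
      rw [← mul_sub, abs_mul, abs_of_pos hpos]
      have h3 : |tup k (wp w) ρ - (∑ u : Fin R → V, ∑ z : Fin k → V,
          (if Q i j ρ u (wp w) z then (1 : ℝ) else 0)) / (Fintype.card V : ℝ) ^ (k + R)| ≤
          ((2 * (k + R) + 2) / Fintype.card V + 2 * (1 - (K : ℝ) / Fintype.card V) ^ R +
            2 / (R + 1)) + 2 * small K (wp w) := by
        refine (tup_close i j (wp w) ρ).trans ?_
        rw [div_le_iff₀ (by positivity)]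
        refine (hCNT V (wp w) k R K i j hij hR hK).trans (le_of_eq ?_)
        ring
      have h4 := mul_le_mul_of_nonneg_left h3 hpos.le
      refine h4.trans (le_of_eq ?_)
      ring
    refine (mean_abs_sub_le hp h2).trans (le_of_eq ?_)
    rw [mean_add, mean_smul, mean_smul]
  have h3 := midw (R := R) hQR hFLIP hIND hINV hNC hp hτ hC hm hm2 hM hij π ϑ bb hϑ hbb hΘb
  have h4 := h1 π
  have h5 := h1 (swap i j * π)
  set c' : ℝ := ϑ ^ nc (swap i j * π) with hc'
  set c : ℝ := ϑ ^ nc π with hc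
  have hc0 : 0 ≤ c := by rw [hc]; positivity
  have hc'0 : 0 ≤ c' := by rw [hc']; positivity
  rw [abs_le] at h3 h4 h5 ⊢
  have a1 := mul_le_mul_of_nonneg_right h4.1 hc'0
  have a2 := mul_le_mul_of_nonneg_right h4.2 hc'0
  have a3 := mul_le_mul_of_nonneg_right h5.1 hc0
  have a4 := mul_le_mul_of_nonneg_right h5.2 hc0
  constructor <;> linarith [h3.1, h3.2, a1, a2, a3, a4]

end base

/-- **RSW-NIVW.** -/
theorem nivw (h1 : S_QRW) (h2 : S_FLIP) (h3 : S_SMALLW) (h4 : S_IND) (h5 : S_INV) (h6 : S_CNT)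
    (h7 : S_NC) : S_NIVW := by
  intro k η ϑ hη hϑ
  obtain ⟨C₀, hC₀, hS⟩ := h3
  -- the constants which depend on `ϑ`
  set Qm : ℝ := max ϑ (1 / ϑ) with hQm
  have hQ1 : 1 ≤ Qm := by
    rcases le_total 1 ϑ with h | h
    · exact h.trans (le_max_left _ _)
    · exact (one_le_one_div hϑ h).trans (le_max_right _ _)
  set C : ℝ := C₀ * Qm with hC
  have hC0 : 0 < C := by positivity
  set lg : ℝ := |Real.log ϑ| with hlg
  have hlg0 : 0 ≤ lg := abs_nonneg _
  set D : ℝ := (max 1 ϑ) ^ k with hD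
  have hD1 : 1 ≤ D := one_le_pow₀ (le_max_left _ _)
  have hD0 : 0 < D := by linarith
  have hDπ : ∀ π : Perm (Fin k), ϑ ^ nc π ≤ D := by
    intro π
    have hk : nc π ≤ k := by simpa using h7.1 (Fin k) π
    calc ϑ ^ nc π ≤ (max 1 ϑ) ^ nc π := pow_le_pow_left₀ hϑ.le (le_max_right _ _) _
      _ ≤ (max 1 ϑ) ^ k := pow_le_pow_right₀ (le_max_left _ _) hk
  set δ : ℝ := η / (100 * D) with hδ
  have hδ0 : 0 < δ := by positivity
  set κ : ℝ := min (1 / 2) (δ / C) with hκ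
  have hκ0 : 0 < κ := lt_min (by norm_num) (by positivity)
  have hκ1 : κ ≤ 1 / 2 := min_le_left _ _
  have hκ2 : C * κ ≤ δ := by
    have : κ ≤ δ / C := min_le_right _ _
    calc C * κ ≤ C * (δ / C) := by gcongr
      _ = δ := by field_simp
  obtain ⟨R1, hR1⟩ := exists_pow_lt_of_lt_one hδ0 (show 1 - κ / 2 < 1 by linarith)
  obtain ⟨R2, hR2⟩ := exists_nat_one_div_lt hδ0
  set R : ℕ := R1 + R2 + 1 with hR
  have hRp : (1 - κ / 2) ^ R ≤ δ := by
    refine le_trans ?_ hR1.le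
    exact pow_le_pow_of_le_one (by linarith) (by linarith) (by omega)
  have hRq : 1 / ((R : ℝ) + 1) ≤ δ := by
    refine le_trans ?_ hR2.le
    apply one_div_le_one_div_of_le (by positivity)
    have : (R2 : ℝ) ≤ R := by exact_mod_cast (by omega : R2 ≤ R)
    linarith
  obtain ⟨m0, hm0⟩ := exists_nat_one_div_lt (show 0 < δ / C by positivity)
  set m1 : ℕ := m0 + 2 with hm1
  have hm1q : C * (1 / (m1 : ℝ)) ≤ δ := by
    have h7 : 1 / (m1 : ℝ) ≤ 1 / ((m0 : ℝ) + 1) := by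
      apply one_div_le_one_div_of_le (by positivity)
      rw [hm1]; push_cast; linarith
    calc C * (1 / (m1 : ℝ)) ≤ C * (δ / C) :=
          mul_le_mul_of_nonneg_left (h7.trans hm0.le) hC0.le
      _ = δ := by field_simp
  set m2 : ℕ := k + R + 2 with hm2
  set L1 : ℝ := Real.log m1 + 2 * lg with hL1
  set L2 : ℝ := Real.log m2 + Real.log (Fintype.card (Fin m2 → Fin m2 → Bool)) + 2 * lg with hL2
  have hL1n : 0 ≤ L1 := add_nonneg (Real.log_natCast_nonneg _) (by positivity)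
  have hL2a : 0 ≤ Real.log (m2 : ℝ) := Real.log_natCast_nonneg _
  have hL2b : 0 ≤ Real.log (Fintype.card (Fin m2 → Fin m2 → Bool) : ℝ) :=
    Real.log_natCast_nonneg _
  have hL2n : 0 ≤ L2 := add_nonneg (add_nonneg hL2a hL2b) (by positivity)
  set A : ℝ := 1 + 2 / κ + (2 * (k + R) + 2) / δ + C ^ 2 * L1 / δ ^ 2 + 20 ^ 2 * L2 / δ ^ 2 +
    4 / δ with hA
  have t1 : 0 ≤ 2 / κ := by positivity
  have t2 : 0 ≤ (2 * ((k : ℝ) + R) + 2) / δ := by positivity
  have t3 : 0 ≤ C ^ 2 * L1 / δ ^ 2 := by positivity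
  have t4 : 0 ≤ 20 ^ 2 * L2 / δ ^ 2 := by positivity
  have t5 : 0 ≤ 4 / δ := by positivity
  have hA0 : 0 < A := by linarith
  refine ⟨A, hA0, ?_⟩
  intro V _ _ _ p τ hp hτ hCmp M hAn hAM i j π hij
  set n : ℝ := (Fintype.card V : ℝ) with hn
  have hn0 : 0 < n := lt_of_lt_of_le hA0 hAn
  have hn1 : 1 ≤ n := by linarith
  have hτ1 : 0 < 1 + τ := by linarith
  have hM0 : (0 : ℝ) < M := lt_of_lt_of_le (by positivity) hAM
  have hM1 : 1 ≤ M := by exact_mod_cast hM0
  -- the weight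
  set Z : ℝ := mean p M (fun w => ϑ ^ nc (wp w)) with hZ
  have hpw : ∀ g : Perm V, Real.exp (-(n * lg)) ≤ ϑ ^ nc g ∧ ϑ ^ nc g ≤ Real.exp (n * lg) := by
    intro g
    have hnc : (nc g : ℝ) ≤ n := by
      rw [hn]
      exact_mod_cast h7.1 V g
    have he : ϑ ^ nc g = Real.exp (nc g * Real.log ϑ) := by
      rw [Real.exp_nat_mul, Real.exp_log hϑ]
    have hab : |(nc g : ℝ) * Real.log ϑ| ≤ n * lg := by
      rw [abs_mul, Nat.abs_cast]
      exact mul_le_mul_of_nonneg_right hnc hlg0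
    rw [abs_le] at hab
    rw [he]
    exact ⟨Real.exp_le_exp.2 hab.1, Real.exp_le_exp.2 hab.2⟩
  have hZge : Real.exp (-(n * lg)) ≤ Z := by
    have := mean_mono hp (M := M) (F := fun _ => Real.exp (-(n * lg)))
      (G := fun w => ϑ ^ nc (wp w)) (fun w => (hpw (wp w)).1)
    rwa [mean_const hp] at this
  have hZ0 : 0 < Z := lt_of_lt_of_le (Real.exp_pos _) hZge
  set bb : ℝ := 2 * (n * lg) with hbb
  have hbb0 : 0 ≤ bb := by positivity
  have hΘb : ∀ g : Perm V, ϑ ^ nc g ≤ Real.exp bb * mean p M (fun w => ϑ ^ nc (wp w)) := by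
    intro g
    refine (hpw g).2.trans ?_
    have e1 : Real.exp (n * lg) = Real.exp bb * Real.exp (-(n * lg)) := by
      rw [← Real.exp_add]
      congr 1
      rw [hbb]
      ring
    rw [e1]
    exact mul_le_mul_of_nonneg_left hZge (Real.exp_pos _).le
  have hsw : ∀ (g : Perm V) (x y : V), ϑ ^ nc (swap x y * g) ≤ Qm * ϑ ^ nc g := by
    intro g x y
    have hpos : 0 < ϑ ^ nc g := by positivity
    by_cases hxy : x = y
    · rw [hxy, swap_self]
      have e0 : (Equiv.refl V : Perm V) * g = g := by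
        ext v; rfl
      rw [e0]
      exact le_mul_of_one_le_left hpos.le hQ1
    · obtain ⟨-, -, h8, -⟩ := h7
      obtain ⟨-, h9, h10⟩ := h8 V g x y hxy
      by_cases hs : g.SameCycle x y
      · rw [h10 hs, pow_succ, mul_comm]
        exact mul_le_mul_of_nonneg_right (le_max_left _ _) hpos.le
      · have e1 := h9 hs
        rw [← e1, pow_succ]
        have hpos' : 0 < ϑ ^ nc (swap x y * g) := by positivity
        have e2 : ϑ ^ nc (swap x y * g) = (1 / ϑ) * (ϑ ^ nc (swap x y * g) * ϑ) := by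
          field_simp
        calc ϑ ^ nc (swap x y * g) = (1 / ϑ) * (ϑ ^ nc (swap x y * g) * ϑ) := e2
          _ ≤ Qm * (ϑ ^ nc (swap x y * g) * ϑ) :=
            mul_le_mul_of_nonneg_right (le_max_right _ _) (by positivity)
  -- the number K
  set K : ℕ := ⌊κ * n⌋₊ with hK
  have hKle : (K : ℝ) ≤ κ * n := Nat.floor_le (by positivity)
  have hKge : κ * n - 1 < K := by
    have := Nat.lt_floor_add_one (κ * n)
    rw [← hK] at this
    linarith
  have hκn : 2 ≤ κ * n := by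
    have h7 : 2 / κ ≤ n := by linarith
    rw [div_le_iff₀ hκ0] at h7
    linarith
  have hK1 : 1 ≤ K := by
    have : (0 : ℝ) < K := by linarith
    exact_mod_cast this
  have hKn : K ≤ Fintype.card V := by
    have h7 : (K : ℝ) ≤ (Fintype.card V : ℝ) := by
      rw [← hn]
      nlinarith
    exact_mod_cast h7
  have hKn2 : (K : ℝ) / n ≤ κ := by
    rw [div_le_iff₀ hn0]; exact hKle
  have hKn3 : κ / 2 ≤ (K : ℝ) / n := by
    rw [le_div_iff₀ hn0]; linarith
  have hpow : (1 - (K : ℝ) / n) ^ R ≤ δ := by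
    refine le_trans ?_ hRp
    apply pow_le_pow_left₀ (by linarith) (by linarith)
  -- the size of the classes
  have hratio : (1 + τ) * n / M ≤ 1 / A := by
    rw [div_le_div_iff₀ hM0 hA0]
    linarith
  have hsmall := hS V p (fun _ _ => 1 / n) (1 / n) τ hp ker_const hτ hCmp m1 M K
    (by omega) hM1 hK1 (fun g => ϑ ^ nc g) (fun g => ϑ ^ nc g) bb Qm (fun g => by positivity)
    (fun g => le_rfl) hQ1 hsw hbb0 hΘb
  have hs1 : C * Real.sqrt ((1 + τ) * (n * Real.log m1 + bb) / M) ≤ δ := by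
    refine sqrt_aux (Lg := L1) hC0 hδ0 hA0 ?_ (by linarith)
    calc (1 + τ) * (n * Real.log m1 + bb) / M = ((1 + τ) * n / M) * L1 := by
          rw [hL1, hbb]; ring
      _ ≤ (1 / A) * L1 := by gcongr
      _ = L1 / A := by ring
  have hs2 : mean p M (fun w => ϑ ^ nc (wp w) * small K (wp w)) ≤ 3 * δ * Z := by
    refine hsmall.trans (mul_le_mul_of_nonneg_right ?_ hZ0.le)
    have h7 : C * ((K : ℝ) * (1 / n)) ≤ δ := by
      have : (K : ℝ) * (1 / n) = K / n := by ring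
      rw [this]
      calc C * ((K : ℝ) / n) ≤ C * κ := by gcongr
        _ ≤ δ := hκ2
    calc C₀ * Qm * (1 / (m1 : ℝ) + K * (1 / n) +
          Real.sqrt ((1 + τ) * (n * Real.log m1 + bb) / M)) =
        C * (1 / (m1 : ℝ)) + C * (K * (1 / n)) +
          C * Real.sqrt ((1 + τ) * (n * Real.log m1 + bb) / M) := by rw [hC]; ring
      _ ≤ 3 * δ := by linarith
  have her : erw n τ bb m2 M ≤ 2 * δ := by
    unfold erw
    have h7 : 20 * Real.sqrt ((1 + τ) * (n * Real.log m2 +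
        Real.log (Fintype.card (Fin m2 → Fin m2 → Bool)) + bb) / M) ≤ δ := by
      refine sqrt_aux (Lg := L2) (by norm_num) hδ0 hA0 ?_ (by linarith)
      calc (1 + τ) * (n * Real.log m2 +
            Real.log (Fintype.card (Fin m2 → Fin m2 → Bool)) + bb) / M
          ≤ (1 + τ) * (n * Real.log m2 +
            n * Real.log (Fintype.card (Fin m2 → Fin m2 → Bool)) + bb) / M := by
            gcongr
            exact le_mul_of_one_le_left hL2b hn1
        _ = ((1 + τ) * n / M) * L2 := by rw [hL2, hbb]; ring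
        _ ≤ (1 / A) * L2 := by gcongr
        _ = L2 / A := by ring
    have h8 : 4 * (1 / n) ≤ δ := by
      have h9 : 4 / δ ≤ n := by linarith
      rw [div_le_iff₀ hδ0] at h9
      rw [mul_one_div, div_le_iff₀ hn0]
      linarith
    linarith
  have hfirst : (2 * ((k : ℝ) + R) + 2) / n ≤ δ := by
    have h9 : (2 * ((k : ℝ) + R) + 2) / δ ≤ n := by linarith
    rw [div_le_iff₀ hδ0] at h9
    rw [div_le_iff₀ hn0]
    linarith
  have hlast : 2 / ((R : ℝ) + 1) ≤ 2 * δ := by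
    calc 2 / ((R : ℝ) + 1) = 2 * (1 / ((R : ℝ) + 1)) := by ring
      _ ≤ 2 * δ := by gcongr
  have htot := totalw (R := R) (m := m2) (M := M) (K := K) h1 h2 h4 h5 h6 h7 hp hτ hCmp
    (by omega) hKn (by omega) (by omega) hM1 hij π ϑ bb hϑ hbb0 hΘb
  refine htot.trans ?_
  have hη' : η = 100 * D * δ := by rw [hδ]; field_simp
  have e1 : ((2 * ((k : ℝ) + R) + 2) / n + 2 * (1 - (K : ℝ) / n) ^ R + 2 / ((R : ℝ) + 1)) * Z ≤
      (5 * δ) * Z := mul_le_mul_of_nonneg_right (by linarith) hZ0.le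
  have e2 : erw n τ bb m2 M * Z ≤ (2 * δ) * Z := mul_le_mul_of_nonneg_right her hZ0.le
  have e3 : ((2 * ((k : ℝ) + R) + 2) / n + 2 * (1 - (K : ℝ) / n) ^ R + 2 / ((R : ℝ) + 1)) * Z +
      2 * mean p M (fun w => ϑ ^ nc (wp w) * small K (wp w)) + erw n τ bb m2 M * Z ≤
      13 * δ * Z := by linarith
  have e4 : ϑ ^ nc (swap i j * π) + ϑ ^ nc π ≤ 2 * D := by
    have := hDπ π
    have := hDπ (swap i j * π)
    linarith
  have e5 : (0 : ℝ) ≤ 13 * δ * Z := by positivity
  have hc0 : 0 ≤ ϑ ^ nc (swap i j * π) + ϑ ^ nc π := by positivity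
  calc (ϑ ^ nc (swap i j * π) + ϑ ^ nc π) *
        (((2 * ((k : ℝ) + R) + 2) / n + 2 * (1 - (K : ℝ) / n) ^ R + 2 / ((R : ℝ) + 1)) * Z +
      2 * mean p M (fun w => ϑ ^ nc (wp w) * small K (wp w)) + erw n τ bb m2 M * Z)
      ≤ (ϑ ^ nc (swap i j * π) + ϑ ^ nc π) * (13 * δ * Z) := mul_le_mul_of_nonneg_left e3 hc0
    _ ≤ (2 * D) * (13 * δ * Z) := mul_le_mul_of_nonneg_right e4 e5
    _ ≤ η * Z := by
        rw [hη']
        have : 0 ≤ D * δ * Z := by positivity
        nlinarith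

end Pool.Agent.Y727.RS
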